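import Pool.Agent.Helper76.P17.StC

/-!
# Project P17 (levels `17^n`), module UB: the upper bound for new symbols

Model: `Pool/Agent/Helper36/P13/M_UB.lean`.
-/

set_option autoImplicit false

namespace Pool.Agent.Helper7.P17

open Pool.Agent.Helper14.CV (Homog EqC act Tl StFar)
open Pool.Agent.Helper28.WK (SymP)
open Pool.Agent.Helper14.W5 (NewSymP NSP)
open Pool.Agent.Helper76.P17

/-- The function `edge17` of the transported potential as a linear map. -/
private noncomputable def Ls (μ k m : ℕ) (u1 u2 v1 v2 : ℤ) :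
    (ℤ → ℤ → ℂ) →ₗ[ℂ] (Pt m → ℂ) where
  toFun G := fun p : Pt m => edge17 μ u1 u2 v1 v2 (act 1 0 0 (17 ^ k) G) p.1 p.2
  map_add' G H := by
    funext p
    simp only [edge17, act, Pi.add_apply]
    ring
  map_smul' c G := by
    funext p
    simp only [edge17, act, Pi.smul_apply, smul_eq_mul, RingHom.id_apply]
    ring

/-- Three functions, odd exponent. -/
private noncomputable def Lod (k : ℕ) :
    (ℤ → ℤ → ℂ) →ₗ[ℂ] (((Pt k → ℂ) × (Pt k → ℂ)) × (Pt k → ℂ)) :=
  ((Ls 0 k k 1 0 0 1).prod (Ls 0 k k 1 0 1 2)).prod (Ls 0 k k 1 0 1 3)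

/-- Eighteen functions, even exponent. -/
private noncomputable def Lev (k m : ℕ) : (ℤ → ℤ → ℂ) →ₗ[ℂ] FnE m :=
  ((Ls 1 k m 1 0 1 1).prod (Ls 1 k m 1 0 8 1)).prod
    ((LinearMap.pi fun i : Fin 7 => Ls 1 k m (vX i).1 (vX i).2.1 (vX i).2.2.1 (vX i).2.2.2).prod
      ((LinearMap.pi fun i : Fin 6 => Ls 1 k m (vC i).1 (vC i).2.1 (vC i).2.2.1 (vC i).2.2.2).prod
        (LinearMap.pi fun i : Fin 3 => Ls 1 k m (vA i).1 (vA i).2.1 (vA i).2.2.1 (vA i).2.2.2)))

private theorem fin1 (m : ℕ) : Module.Finite ℂ (Pt m → ℂ) := inferInstance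

private theorem finF (n m : ℕ) : Module.Finite ℂ (Fin n → Pt m → ℂ) := inferInstance

private theorem finE (m : ℕ) : Module.Finite ℂ (FnE m) := by
  have h2 : Module.Finite ℂ ((Pt m → ℂ) × (Pt m → ℂ)) := inferInstance
  have h7 := finF 7 m
  have h6 := finF 6 m
  have h3 := finF 3 m
  have h63 : Module.Finite ℂ ((Fin 6 → Pt m → ℂ) × (Fin 3 → Pt m → ℂ)) :=
    @Module.Finite.prod ℂ _ _ _ _ _ _ _ h6 h3
  have h763 : Module.Finite ℂ
      ((Fin 7 → Pt m → ℂ) × ((Fin 6 → Pt m → ℂ) × (Fin 3 → Pt m → ℂ))) :=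
    @Module.Finite.prod ℂ _ _ _ _ _ _ _ h7 h63
  exact @Module.Finite.prod ℂ _ _ _ _ _ _ _ h2 h763

private theorem finS (m : ℕ) : Module.Finite ℂ (subE m) := by
  have := finE m
  exact FiniteDimensional.finiteDimensional_submodule _

private theorem build (n D : ℕ) {W : Type} [AddCommGroup W] [Module ℂ W] [Module.Finite ℂ W]
    (hW : Module.finrank ℂ W ≤ D) (L : NSP 17 n →ₗ[ℂ] W)
    (hinj : ∀ G : NSP 17 n, L G = 0 → EqC (G : ℤ → ℤ → ℂ) 0) :
    ∃ Θ : NSP 17 n →ₗ[ℂ] (Fin D → ℂ), ∀ G : NSP 17 n, Θ G = 0 → EqC (G : ℤ → ℤ → ℂ) 0 := by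
  have h0 : Module.finrank ℂ W ≤ Module.finrank ℂ (Fin D → ℂ) := by simpa using hW
  obtain ⟨e, he⟩ := finrank_le_iff_exists_linearMap.1 h0
  refine ⟨e.comp L, fun G hG => hinj G ?_⟩
  apply he
  rw [map_zero]
  exact hG

/-- **Module UB.** -/
theorem hUB : StHUB := by
  intro hBal hE1a hE1b hO1 hDimE hDimO n hn
  rcases Nat.even_or_odd' n with ⟨k, hk | hk⟩
  · -- even exponent
    subst hk
    have hk2 : 2 ≤ k := by omega
    have key : ∀ G ∈ NSP 17 (2 * k), Lev k (k - 1) G ∈ subE (k - 1) ∧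
        (Lev k (k - 1) G = 0 → EqC G 0) := by
      intro G hG
      have hN : NewSymP 17 (2 * k) G := hG
      have hB := (hBal k G (by omega)).1 hN
      have a1 := hE1a k _ hk2 hB
      have a2 := hE1b k _ hk2 hB
      refine ⟨a1, fun h0 => ?_⟩
      have h1 := congrArg (fun z => z.1.1) h0
      have h2 := congrArg (fun z => z.1.2) h0
      have h3 := congrArg (fun z => z.2.1) h0
      have h4 := congrArg (fun z => z.2.2.1) h0
      have h5 := congrArg (fun z => z.2.2.2) h0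
      have h12 := a2 (fun x y => ⟨⟨congrFun h1 (x, y), congrFun h2 (x, y)⟩,
        fun i => congrFun (congrFun h3 i) (x, y), fun i => congrFun (congrFun h4 i) (x, y),
        fun i => congrFun (congrFun h5 i) (x, y)⟩)
      exact (hBal k G (by omega)).2.2 hN.1.1 h12
    have hd : dd17 (2 * k) = 3264 * 289 ^ (k - 2) - 32 * 17 ^ (k - 2) := by
      have h2k : 2 * k / 2 = k := by omega
      unfold dd17
      rw [if_neg (by omega), if_neg (by omega), if_neg (by omega), if_neg (by omega), h2k]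
    rw [hd]
    let L1 : NSP 17 (2 * k) →ₗ[ℂ] subE (k - 1) :=
      ((Lev k (k - 1)).comp (NSP 17 (2 * k)).subtype).codRestrict (subE (k - 1))
        (fun G => (key G G.2).1)
    have := finS (k - 1)
    refine build (2 * k) _ ?_ L1 (fun G hG => ?_)
    · rw [hDimE (k - 1) (by omega)]
      have e : k - 1 - 1 = k - 2 := by omega
      rw [e]
    · exact (key G G.2).2 (congrArg Subtype.val hG)
  · -- odd exponent
    subst hk
    have hk1 : 1 ≤ k := by omega
    have key : ∀ G ∈ NSP 17 (2 * k + 1), Lod k G ∈ subO k ∧ (Lod k G = 0 → EqC G 0) := by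
      intro G hG
      have hN : NewSymP 17 (2 * k + 1) G := hG
      have hB := (hBal k G hk1).2.1 hN
      obtain ⟨a1, a2⟩ := hO1 k _ hk1 hB
      refine ⟨a1, fun h0 => ?_⟩
      have h1 := congrArg (fun z => z.1.1) h0
      have h2 := congrArg (fun z => z.1.2) h0
      have h3 := congrArg (fun z => z.2) h0
      have h4 := a2 (fun x y => ⟨congrFun h1 (x, y), congrFun h2 (x, y), congrFun h3 (x, y)⟩)
      exact (hBal k G hk1).2.2 hN.1.1 h4
    have hd : dd17 (2 * k + 1) = 192 * 289 ^ (k - 1) + 16 * 17 ^ (k - 1) := by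
      have h2k : (2 * k + 1) / 2 = k := by omega
      unfold dd17
      rw [if_neg (by omega), if_neg (by omega), if_neg (by omega), if_pos (by omega), h2k]
    rw [hd]
    let L1 : NSP 17 (2 * k + 1) →ₗ[ℂ] subO k :=
      ((Lod k).comp (NSP 17 (2 * k + 1)).subtype).codRestrict (subO k)
        (fun G => (key G G.2).1)
    refine build (2 * k + 1) _ ?_ L1 (fun G hG => ?_)
    · rw [hDimO k hk1]
    · exact (key G G.2).2 (congrArg Subtype.val hG)

end Pool.Agent.Helper7.P17
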